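import Mathlib

/-!
# Independence polynomials by deletion and contraction

`ip adj n 0` is the list of the numbers of independent sets of size `0, 1, ...` of the graph on
`0, ..., n - 1` in which `i < j` are adjacent when the bit `i` of `adj j` is `1`.
-/

set_option autoImplicit false

namespace Pool.Agent.K7.H27.IndPoly

open Finset

/-- sum of two coefficient lists -/
def addL : List ℕ → List ℕ → List ℕ
  | [], l => l
  | a :: l, [] => a :: l
  | a :: l, b :: m => (a + b) :: addL l m

/-- numbers of independent subsets of `{0, ..., n-1}` avoiding the set `forb`, by size -/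
def ip (adj : ℕ → ℕ) : ℕ → ℕ → List ℕ
  | 0, _ => [1]
  | n + 1, forb =>
    if forb.testBit n then ip adj n forb
    else addL (ip adj n forb) (0 :: ip adj n (forb ||| adj n))

/-- the sum of `l_k h(k)` -/
def evalL : List ℕ → (ℕ → ℝ) → ℝ
  | [], _ => 0
  | a :: l, h => a * h 0 + evalL l (fun k => h (k + 1))

lemma evalL_addL (l m : List ℕ) (h : ℕ → ℝ) : evalL (addL l m) h = evalL l h + evalL m h := by
  induction l generalizing m h with
  | nil => simp [addL, evalL]
  | cons a l ih =>
    cases m with
    | nil => simp [addL, evalL]
    | cons b m =>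
      simp only [addL, evalL, ih]
      push_cast
      ring

/-- `J` is independent and avoids `forb` -/
def Ok (adj : ℕ → ℕ) (forb : ℕ) (J : Finset ℕ) : Prop :=
  (∀ i ∈ J, ∀ j ∈ J, i < j → (adj j).testBit i = false) ∧ ∀ i ∈ J, forb.testBit i = false

open Classical in
lemma sum_ok (adj : ℕ → ℕ) (n : ℕ) : ∀ (forb : ℕ) (h : ℕ → ℝ),
    ∑ J ∈ (range n).powerset, (if Ok adj forb J then h J.card else 0) =
      evalL (ip adj n forb) h := by
  induction n with
  | zero =>
    intro forb h
    simp [ip, evalL, Ok]
  | succ n ih =>
    intro forb h
    rw [Finset.range_add_one, Finset.sum_powerset_insert (by simp), ih]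
    have hmem : ∀ t ∈ (range n).powerset, n ∉ t := by
      intro t ht hn
      have := Finset.mem_powerset.1 ht hn
      simp at this
    have hlt : ∀ t ∈ (range n).powerset, ∀ i ∈ t, i < n := by
      intro t ht i hi
      have := Finset.mem_powerset.1 ht hi
      simpa using this
    by_cases hb : forb.testBit n = true
    · rw [ip, if_pos hb]
      rw [Finset.sum_eq_zero, add_zero]
      intro t ht
      rw [if_neg]
      intro hok
      have := hok.2 n (by simp)
      rw [hb] at this
      exact Bool.noConfusion this
    · have hb' : forb.testBit n = false := by simpa using hb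
      rw [ip, if_neg hb, evalL_addL]
      congr 1
      simp only [evalL, Nat.cast_zero, zero_mul, zero_add]
      rw [← ih]
      refine Finset.sum_congr rfl fun t ht => ?_
      rw [Finset.card_insert_of_notMem (hmem t ht)]
      have key : Ok adj forb (insert n t) ↔ Ok adj (forb ||| adj n) t := by
        constructor
        · rintro ⟨h1, h2⟩
          refine ⟨fun i hi j hj hij => h1 i (mem_insert_of_mem hi) j (mem_insert_of_mem hj) hij,
            fun i hi => ?_⟩
          rw [Nat.testBit_or, h2 i (mem_insert_of_mem hi),
            h1 i (mem_insert_of_mem hi) n (mem_insert_self _ _) (hlt t ht i hi)]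
          rfl
        · rintro ⟨h1, h2⟩
          have h3 : ∀ i ∈ t, forb.testBit i = false ∧ (adj n).testBit i = false := by
            intro i hi
            have := h2 i hi
            rw [Nat.testBit_or] at this
            simpa using this
          refine ⟨fun i hi j hj hij => ?_, fun i hi => ?_⟩
          · rcases mem_insert.1 hi with hi' | hi'
            · rcases mem_insert.1 hj with hj' | hj'
              · exact absurd hij (by rw [hi', hj']; exact lt_irrefl _)
              · exact absurd hij (by rw [hi']; exact not_lt.2 (hlt t ht j hj').le)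
            · rcases mem_insert.1 hj with hj' | hj'
              · rw [hj']; exact (h3 i hi').2
              · exact h1 i hi' j hj' hij
          · rcases mem_insert.1 hi with hi' | hi'
            · rw [hi']; exact hb'
            · exact (h3 i hi').1
      simp only [key]

/-- transfer from `Finset (Fin n)` to subsets of `range n` -/
lemma sum_fin (n : ℕ) (F : Finset ℕ → ℝ) :
    ∑ I : Finset (Fin n), F (I.map Fin.valEmbedding) = ∑ J ∈ (range n).powerset, F J := by
  refine Finset.sum_bij (fun I _ => I.map Fin.valEmbedding) ?_ ?_ ?_ ?_
  · intro I _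
    rw [Finset.mem_powerset]
    intro x hx
    obtain ⟨y, _, rfl⟩ := Finset.mem_map.1 hx
    simp
  · intro I _ J _ h
    exact Finset.map_injective _ h
  · intro J hJ
    rw [Finset.mem_powerset] at hJ
    refine ⟨Finset.univ.filter (fun i : Fin n => (i : ℕ) ∈ J), mem_univ _, ?_⟩
    ext x
    simp only [mem_map, mem_filter, mem_univ, true_and, Fin.valEmbedding_apply]
    constructor
    · rintro ⟨y, hy, rfl⟩; exact hy
    · intro hx
      have := hJ hx
      rw [mem_range] at this
      exact ⟨⟨x, this⟩, hx, rfl⟩
  · intro I _
    rfl

open Classical in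
/-- The sum of `h |I|` over the independent sets of a graph given by bit masks. -/
theorem sum_indep {V : Type} [Fintype V] (n : ℕ) (e : V ≃ Fin n) (G : SimpleGraph V)
    (adj : ℕ → ℕ)
    (hadj : ∀ i j : Fin n, i < j → (G.Adj (e.symm i) (e.symm j) ↔ (adj j).testBit i = true))
    (h : ℕ → ℝ) :
    ∑ I : Finset V, (if G.IsIndepSet (I : Set V) then h I.card else 0) =
      evalL (ip adj n 0) h := by
  rw [← sum_ok, ← sum_fin]
  refine Fintype.sum_equiv e.finsetCongr _ _ ?_
  intro I
  have hc : ((e.finsetCongr I).map Fin.valEmbedding).card = I.card := by simp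
  rw [hc]
  have key : G.IsIndepSet (I : Set V) ↔
      Ok adj 0 ((e.finsetCongr I).map Fin.valEmbedding) := by
    constructor
    · intro hI
      refine ⟨?_, ?_⟩
      · intro i hi j hj hij
        simp only [Equiv.finsetCongr_apply, mem_map, Equiv.coe_toEmbedding,
          Fin.valEmbedding_apply] at hi hj
        obtain ⟨_, ⟨x, hx, rfl⟩, rfl⟩ := hi
        obtain ⟨_, ⟨y, hy, rfl⟩, rfl⟩ := hj
        have hne : x ≠ y := by
          rintro rfl
          exact lt_irrefl _ hij
        have hxy := hI hx hy hne
        have h1 := hadj (e x) (e y) hij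
        rw [Equiv.symm_apply_apply, Equiv.symm_apply_apply] at h1
        by_contra hcon
        apply hxy
        rw [h1]
        simpa using hcon
      · intro i _
        simp
    · intro hok x hx y hy hne hxy
      have hne' : e x ≠ e y := fun h' => hne (e.injective h')
      have hm : ∀ z ∈ I, ((e z : Fin n) : ℕ) ∈ (e.finsetCongr I).map Fin.valEmbedding := by
        intro z hz
        simp only [Equiv.finsetCongr_apply, mem_map, Equiv.coe_toEmbedding,
          Fin.valEmbedding_apply]
        exact ⟨e z, ⟨z, hz, rfl⟩, rfl⟩
      rcases lt_or_gt_of_ne hne' with hlt | hlt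
      · have h1 := hok.1 _ (hm x hx) _ (hm y hy) hlt
        have h2 := (hadj (e x) (e y) hlt).1 (by simpa using hxy)
        rw [h1] at h2
        exact Bool.noConfusion h2
      · have h1 := hok.1 _ (hm y hy) _ (hm x hx) hlt
        have h2 := (hadj (e y) (e x) hlt).1 (by simpa using hxy.symm)
        rw [h1] at h2
        exact Bool.noConfusion h2
  simp only [key]

end Pool.Agent.K7.H27.IndPoly
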