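import Pool.Statements.S10336
import Pool.Agent.K7.H27.IndPoly

/-!
The conjecture fails: for the fugacity `9/5` (which is larger than the root `1.77239...`) the
`22`-vertex graph `GG` below has a smaller occupancy fraction (`0.2446661...`) than the
Cyclotomic-13 graph (`0.2446760...`).
-/

set_option autoImplicit false
open Classical
open Pool Pool.MP_99d978_co

namespace Pool.Agent.K7.H27.OccWithdrawn

open Finset Pool.Agent.K7.H27.IndPoly

/-- neighbourhoods of the vertices of the counterexample as bit masks -/
def mG (i : ℕ) : ℕ :=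
  [1114384, 272400, 2146320, 3408896, 4103, 1069568, 268416, 41536, 2260993, 2621600, 102408,
    1179714, 1136, 82050, 139300, 1412, 533505, 542976, 524362, 459264, 2089, 780].getD i 0

/-- neighbourhoods of the vertices of the Robertson graph as bit masks -/
def mR (i : ℕ) : ℕ :=
  [13314, 2241, 8360, 71684, 43264, 132164, 294946, 774, 263312, 168064, 65825, 131098, 262665,
    16405, 466944, 66128, 50184, 18976, 20800].getD i 0

/-- neighbourhoods of the vertices of the Cyclotomic-13 graph as bit masks -/
def mC (i : ℕ) : ℕ :=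
  [4386, 581, 1162, 2324, 4648, 1105, 2210, 4420, 649, 1298, 2596, 5192, 2193].getD i 0

/-- the counterexample -/
def GG : SimpleGraph (Fin 22) where
  Adj i j := (mG i).testBit j = true
  symm := ⟨by decide +kernel⟩
  loopless := ⟨by decide +kernel⟩

/-- the Robertson graph -/
def RR : SimpleGraph (Fin 19) where
  Adj i j := (mR i).testBit j = true
  symm := ⟨by decide +kernel⟩
  loopless := ⟨by decide +kernel⟩

theorem countG : ip mG 22 0 = [1, 22, 187, 792, 1795, 2164, 1277, 284] := by decide +kernel

theorem countC : ip mC 13 0 = [1, 13, 52, 78, 39] := by decide +kernel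

theorem reg_of {n : ℕ} (G : SimpleGraph (Fin n)) (m : ℕ → ℕ)
    (h : ∀ i j : Fin n, G.Adj i j ↔ (m i).testBit j = true)
    (hc : ∀ i : Fin n, (Finset.univ.filter fun j : Fin n => (m i).testBit j = true).card = 4) :
    G.IsRegularOfDegree 4 := by
  intro v
  rw [← hc v, ← SimpleGraph.card_neighborFinset_eq_degree]
  congr 1
  ext j
  rw [SimpleGraph.mem_neighborFinset, Finset.mem_filter]
  simp [h]

theorem regG : GG.IsRegularOfDegree 4 :=
  reg_of GG mG (fun _ _ => Iff.rfl) (by decide +kernel)

theorem regR : RR.IsRegularOfDegree 4 :=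
  reg_of RR mR (fun _ _ => Iff.rfl) (by decide +kernel)

theorem triG : ∀ a b c : Fin 22, (mG a).testBit b = true → (mG b).testBit c = true →
    (mG a).testBit c = true → False := by
  decide +kernel

theorem triR : ∀ a b c : Fin 19, (mR a).testBit b = true → (mR b).testBit c = true →
    (mR c).testBit a = true → False := by
  decide +kernel

theorem quadR : ∀ a b c d : Fin 19, (mR a).testBit b = true → (mR b).testBit c = true →
    (mR c).testBit d = true → (mR d).testBit a = true → a ≠ c → b ≠ d → False := by
  decide +kernel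

theorem freeG : GG.CliqueFree 3 := by
  intro s hs
  rw [SimpleGraph.is3Clique_iff] at hs
  obtain ⟨a, b, c, h1, h2, h3, -⟩ := hs
  exact triG a b c h1 h3 h2

theorem girthR : (5 : ℕ∞) ≤ RR.egirth := by
  rw [SimpleGraph.le_egirth]
  intro a w hw
  have h3 := hw.three_le_length
  have h5 : 5 ≤ w.length := by
    by_contra hcon
    have h34 : w.length = 3 ∨ w.length = 4 := by omega
    cases w with
    | nil => simp at h3
    | cons h1 w =>
      cases w with
      | nil => simp at h3
      | cons h2 w =>
        cases w with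
        | nil => simp at h3
        | cons h3' w =>
          cases w with
          | nil => exact triR _ _ _ h1 h2 h3'
          | cons h4 w =>
            cases w with
            | nil =>
              have hn := hw.support_nodup
              simp only [SimpleGraph.Walk.support_cons, SimpleGraph.Walk.support_nil,
                List.tail_cons, List.nodup_cons, List.mem_cons, List.not_mem_nil, or_false,
                not_or] at hn
              refine quadR _ _ _ _ h1 h2 h3' h4 ?_ ?_
              · exact fun h => hn.2.1.2 h.symm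
              · exact hn.1.2.1
            | cons h5 w =>
              simp only [SimpleGraph.Walk.length_cons] at h34
              omega
  exact_mod_cast h5

theorem adjC : ∀ i j : Fin 13, ((i ≠ j) ∧ ((i - j = 1 ∨ i - j = 5) ∨ (j - i = 1 ∨ j - i = 5))) ↔
    (mC j).testBit i = true := by
  decide +kernel

/-- the elements of `ZMod 13` -/
def eC : ZMod 13 ≃ Fin 13 := Equiv.refl (Fin 13)

theorem sumC (h : ℕ → ℝ) :
    ∑ I : Finset (ZMod 13),
      (if (SimpleGraph.fromRel (fun x y : ZMod 13 => x - y = 1 ∨ x - y = 5)).IsIndepSet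
        (I : Set (ZMod 13)) then h I.card else 0) = evalL [1, 13, 52, 78, 39] h := by
  have hadj : ∀ i j : Fin 13, i < j →
      ((SimpleGraph.fromRel (fun x y : ZMod 13 => x - y = 1 ∨ x - y = 5)).Adj
        (eC.symm i) (eC.symm j) ↔ (mC j).testBit i = true) := by
    intro i j _
    exact (SimpleGraph.fromRel_adj _ _ _).trans (adjC i j)
  have key := sum_indep (V := ZMod 13) 13 eC _ mC hadj h
  rw [countC] at key
  rw [← key]
  refine Finset.sum_congr ?_ fun I _ => ?_
  · ext I
    simp
  · congr

theorem adjG (i j : Fin 22) (_ : i < j) :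
    (GG.Adj ((Equiv.refl (Fin 22)).symm i) ((Equiv.refl (Fin 22)).symm j) ↔
      (mG j).testBit i = true) :=
  ⟨fun h => h.symm, fun h => (show GG.Adj j i from h).symm⟩

/-- the sextic -/
noncomputable def sextic (x : ℝ) : ℝ :=
  90*x^6 + 729*x^5 - 188*x^4 - 1632*x^3 - 1247*x^2 - 363*x - 38

theorem sextic_pos (x : ℝ) (hx : 9 / 5 < x) : 0 < sextic x := by
  obtain ⟨y, rfl⟩ : ∃ y, x = 9 / 5 + y := ⟨x - 9 / 5, by ring⟩
  have hy : 0 < y := by linarith
  unfold sextic
  have e : 90*(9/5+y)^6 + 729*(9/5+y)^5 - 188*(9/5+y)^4 - 1632*(9/5+y)^3 - 1247*(9/5+y)^2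
      - 363*(9/5+y) - 38 = 90*y^6 + 1701*y^5 + 10747*y^4 + 155658/5*y^3 + 1074313/25*y^2
      + 14604072/625*y + 1915619/3125 := by
    ring
  rw [e]
  positivity

theorem exists_root : ∃ L : ℝ, sextic L = 0 ∧ ∀ x : ℝ, sextic x = 0 → x ≤ L := by
  -- the set of roots is closed, nonempty and bounded above
  have hcont : Continuous sextic := by unfold sextic; fun_prop
  have hne : ∃ x, sextic x = 0 := by
    have h0 : sextic 0 ≤ 0 := by unfold sextic; norm_num
    have h2 : 0 ≤ sextic 2 := by unfold sextic; norm_num
    obtain ⟨x, -, hx⟩ := intermediate_value_Icc (by norm_num : (0 : ℝ) ≤ 2)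
      hcont.continuousOn ⟨h0, h2⟩
    exact ⟨x, hx⟩
  have hbdd : BddAbove {x | sextic x = 0} := by
    refine ⟨9 / 5, fun x hx => ?_⟩
    by_contra hcon
    have := sextic_pos x (not_le.1 hcon)
    rw [Set.mem_ofPred_eq] at hx
    linarith
  have hclosed : IsClosed {x | sextic x = 0} := isClosed_eq hcont continuous_const
  exact ⟨sSup {x | sextic x = 0}, hclosed.csSup_mem hne hbdd, fun x hx => le_csSup hbdd hx⟩

/-- The negation of the preceding statement: Let L be the largest real root of the sextic. For every finite 4-regular triangle-free G and λ>0: if λ≤L, G's occupancy fraction is at least the Robertson graph's (4-regular, girth 5, 19 vertices); if λ≥L, at least that of the circulant on Z13 with jumps ±1,±5. -/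
theorem counterexample :
    ¬ (∀ L : ℝ,
      90*L^6 + 729*L^5 - 188*L^4 - 1632*L^3 - 1247*L^2 - 363*L - 38 = 0 →
      (∀ x : ℝ, 90*x^6 + 729*x^5 - 188*x^4 - 1632*x^3 - 1247*x^2 - 363*x - 38 = 0 → x ≤ L) →
      ∀ (V : Type) [Fintype V] [Nonempty V] (G : SimpleGraph V),
        G.IsRegularOfDegree 4 → G.CliqueFree 3 →
        ∀ H : SimpleGraph (Fin 19), H.IsRegularOfDegree 4 → (5 : ℕ∞) ≤ H.egirth →
        ∀ l : ℝ, 0 < l →
          (l ≤ L →
            (∑ I : Finset (Fin 19), if H.IsIndepSet (I : Set (Fin 19)) then (I.card : ℝ) * l ^ I.card else 0) /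
              ((Fintype.card (Fin 19) : ℝ) *
                ∑ I : Finset (Fin 19), if H.IsIndepSet (I : Set (Fin 19)) then l ^ I.card else 0)
            ≤
            (∑ I : Finset V, if G.IsIndepSet (I : Set V) then (I.card : ℝ) * l ^ I.card else 0) /
              ((Fintype.card V : ℝ) *
                ∑ I : Finset V, if G.IsIndepSet (I : Set V) then l ^ I.card else 0)) ∧
          (L ≤ l →
            (∑ I : Finset (ZMod 13),
                if (SimpleGraph.fromRel (fun x y : ZMod 13 => x - y = 1 ∨ x - y = 5)).IsIndepSet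
                    (I : Set (ZMod 13))
                then (I.card : ℝ) * l ^ I.card else 0) /
              ((Fintype.card (ZMod 13) : ℝ) *
                ∑ I : Finset (ZMod 13),
                  if (SimpleGraph.fromRel (fun x y : ZMod 13 => x - y = 1 ∨ x - y = 5)).IsIndepSet
                      (I : Set (ZMod 13))
                  then l ^ I.card else 0)
            ≤
            (∑ I : Finset V, if G.IsIndepSet (I : Set V) then (I.card : ℝ) * l ^ I.card else 0) /
              ((Fintype.card V : ℝ) *
                ∑ I : Finset V, if G.IsIndepSet (I : Set V) then l ^ I.card else 0))) := by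
  intro hall
  obtain ⟨L, hL0, hL⟩ := exists_root
  have hL95 : L ≤ 9 / 5 := by
    by_contra hcon
    have := sextic_pos L (not_le.1 hcon)
    linarith
  have h := (hall L hL0 hL (Fin 22) GG regG freeG RR regR girthR (9 / 5) (by norm_num)).2 hL95
  have g1 := sum_indep 22 (Equiv.refl (Fin 22)) GG mG adjG (fun k => (k : ℝ) * (9 / 5) ^ k)
  have g2 := sum_indep 22 (Equiv.refl (Fin 22)) GG mG adjG (fun k => (9 / 5 : ℝ) ^ k)
  rw [countG] at g1 g2
  rw [sumC (fun k => (k : ℝ) * (9 / 5) ^ k), sumC (fun k => (9 / 5 : ℝ) ^ k), g1, g2,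
    ZMod.card, Fintype.card_fin] at h
  norm_num [evalL] at h

end Pool.Agent.K7.H27.OccWithdrawn
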